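import Pool.Agent.K4H73.Refine.Final

set_option autoImplicit false

namespace Pool.Agent.Results.MP_82a66d_co.NoRefinement

open Set Pool.Agent.K4H73.Refine

/-- The statement of Q1 in dimension `d`. -/
def Question (d : ℕ) : Prop :=
  ∀ (P : Set (Sp d)) (F : ℕ → Set (Sp d)) (V : Sp d) (T : Set (Sp d)),
    IsFullPolytope P → IsTower P F → IsFace P {V} → V ∉ F (d - 1) → IsSimplex T →
      ∃ ψ : P ≃ₜ T, IsRefinementMap ψ ∧ IsPiecewiseAffine ψ ∧ IsFace T (img ψ {V}) ∧
        ∀ i ≤ d, IsFace T (img ψ (F i))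

/-- The statement of Q1 fails in every dimension `d ≥ 3`. Moreover for every `d ≥ 3` there are a
`d`-polytope `P`, a tower of faces of `P` and a vertex `V` not in `F (d - 1)` such that no refinement
map of `P` onto a `d`-simplex, piecewise affine or not, maps `V` and all `F i` onto faces. -/
theorem result : ∀ d : ℕ, 3 ≤ d → ¬ Question d ∧
    ∃ (P : Set (Sp d)) (F : ℕ → Set (Sp d)) (V : Sp d),
      IsFullPolytope P ∧ IsTower P F ∧ IsFace P {V} ∧ V ∉ F (d - 1) ∧
        ∀ T : Set (Sp d), IsSimplex T → ∀ ψ : P ≃ₜ T, IsRefinementMap ψ →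
          ¬ (IsFace T (img ψ {V}) ∧ ∀ i ≤ d, IsFace T (img ψ (F i))) := by
  intro d hd
  obtain ⟨n, rfl⟩ : ∃ n, d = n + 3 := ⟨d - 3, by omega⟩
  have hV : vV n ∉ tower n (n + 3 - 1) := by
    intro h
    have := (mem_facet vV_mem).1 h
    rw [vV_zero] at this
    norm_num at this
  constructor
  · intro hQ
    obtain ⟨⟨b⟩⟩ : Nonempty (Nonempty (AffineBasis (Fin (n + 3 + 1)) ℝ (Sp (n + 3)))) :=
      ⟨AffineBasis.exists_affineBasis_of_finiteDimensional (by simp)⟩
    have hT : IsSimplex (convexHull ℝ (range b)) := ⟨b, b.ind, rfl⟩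
    obtain ⟨ψ, h1, -, h2, h3⟩ := hQ (prism n) (tower n) (vV n) _ isFullPolytope_prism isTower
      isFace_V hV hT
    exact no_refinement hT ψ h1 h2 h3
  · exact ⟨prism n, tower n, vV n, isFullPolytope_prism, isTower, isFace_V, hV,
      fun T hT ψ h1 h2 => no_refinement hT ψ h1 h2.1 h2.2⟩

end Pool.Agent.Results.MP_82a66d_co.NoRefinement
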